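import Pool.Agent.Helper10.RC.Basic

/-!
# MP_b55b7c_an: packet TComp
-/

open scoped ENNReal NNReal InnerProductSpace ComplexOrder
open Filter Topology

attribute [-instance] CStarMatrix.instAlgebra CStarMatrix.instModule CStarMatrix.instSMul
  CStarMatrix.instMulAction CStarMatrix.instDistribMulAction

set_option linter.unusedSectionVars false

noncomputable section
namespace RC
universe u

section tcomp38
variable {A : Type u} [CStarAlgebra A] [PartialOrder A] [StarOrderedRing A]
variable {ι κ μ ν : Type} [Fintype ι] [DecidableEq ι] [Fintype κ] [DecidableEq κ]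
  [Fintype μ] [DecidableEq μ] [Fintype ν] [DecidableEq ν]

/-- a matrix with rows indexed by `Unit × ν` -/
def up38 (x : CStarMatrix ν μ A) : CStarMatrix (Unit × ν) μ A :=
  CStarMatrix.ofMatrix fun p j => x p.2 j

theorem up38_conj_mul (x : CStarMatrix ν ι A) (y : CStarMatrix ν μ A) :
    (up38 x).conjTranspose * up38 y = x.conjTranspose * y := by
  ext i j
  rw [CStarMatrix.mul_apply, CStarMatrix.mul_apply, Fintype.sum_prod_type]
  simp [up38]

theorem up38_mul (x : CStarMatrix ν ι A) (y : CStarMatrix ι μ A) :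
    up38 x * y = up38 (x * y) := rfl

theorem flat_one1_eq (x : CStarMatrix ν ι A) (a : CStarMatrix ι κ A) (y : CStarMatrix ν κ A) :
    flat (one1 (x * a * y.conjTranspose)) = up38 x * a * (up38 y).conjTranspose := rfl

theorem flat_one1_mul (z : CStarMatrix ν ν A) (y : CStarMatrix ν κ A) :
    flat (one1 z) * up38 y = up38 (z * y) := by
  ext i j
  rw [CStarMatrix.mul_apply, Fintype.sum_prod_type]
  simp [up38, flat, one1, CStarMatrix.mul_apply]

theorem one1_nonneg38 {D : Type u} [CStarAlgebra D] [PartialOrder D] [StarOrderedRing D]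
    {x : D} (hx : 0 ≤ x) : 0 ≤ one1 x := by
  obtain ⟨s, hs⟩ := CStarAlgebra.nonneg_iff_eq_mul_star_self.mp hx
  have : one1 x = one1 s * (one1 s).conjTranspose := by
    ext i j
    rw [CStarMatrix.mul_apply]
    simp [one1, hs, CStarMatrix.conjTranspose_apply]
  rw [this]
  exact cm_mul_conj_nonneg _

theorem dim_flat38 (h5 : FlatP.{u}) (h6 : QMonoP.{u}) (σ : QTrace A) (E : CStarMatrix ν ι A)
    (hE : E.conjTranspose * E = 1) (a : CStarMatrix ι ι A) (ha : 0 ≤ a) :
    σ.dim (flat (one1 (E * a * E.conjTranspose))) = σ.dim a := by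
  have hp : 0 ≤ flat (one1 (E * a * E.conjTranspose)) :=
    ((h5 A ν Unit Unit _ (one1 (E * a * E.conjTranspose))).1).1
      (one1_nonneg38 (cm_conj_nonneg E ha))
  have hE1 : (up38 E).conjTranspose * up38 E = 1 := by rw [up38_conj_mul, hE]
  refine le_antisymm (h6 A σ _ _ _ _ hp ha ?_) (h6 A σ _ _ _ _ ha hp ?_)
  · intro ε hε
    refine ⟨up38 E, ?_⟩
    rw [flat_one1_eq, sub_self, norm_zero]; exact hε
  · intro ε hε
    refine ⟨(up38 E).conjTranspose, ?_⟩
    have : (up38 E).conjTranspose * flat (one1 (E * a * E.conjTranspose)) *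
        (up38 E).conjTranspose.conjTranspose = a := by
      rw [flat_one1_eq, cm_conj_conj, cm_assoc (up38 E), ← cm_assoc (up38 E).conjTranspose,
        hE1, cm_one_mul, cm_assoc, hE1, cm_mul_one]
    rw [this, sub_self, norm_zero]; exact hε

end tcomp38

theorem tCompP (h1 : TComp0P.{u}) (h2 : DomMatP.{u}) (h3 : RedDnP.{u}) (h4 : RedUpP.{u})
    (h5 : FlatP.{u}) (h6 : QMonoP.{u}) (h7 : QBasicP.{u}) : TCompP.{u} := by
  intro A _ _ _ φ σ₀ C hQ hC hD ι κ _ _ _ _ a b ha hb hab δ hδ
  rcases isEmpty_or_nonempty ι with hι | hι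
  · refine ⟨0, 0, le_rfl, ?_, ?_⟩
    · apply le_of_eq
      ext i j
      exact (hι.false i).elim
    · intro σ
      have := (h7 A σ ι 0 le_rfl).2.2.1
      rw [Fintype.card_eq_zero] at this
      exact lt_of_le_of_lt (by simpa using this) hδ
  · have hν : Nonempty (ι ⊕ κ) := ⟨Sum.inl hι.some⟩
    let R : CStarMatrix (ι ⊕ κ) ι A :=
      CStarMatrix.ofMatrix (Matrix.of fun p i => if p = Sum.inl i then 1 else 0)
    let S : CStarMatrix (ι ⊕ κ) κ A :=
      CStarMatrix.ofMatrix (Matrix.of fun p i => if p = Sum.inr i then 1 else 0)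
    have hR : R.conjTranspose * R = 1 := by
      ext i j
      rw [CStarMatrix.mul_apply]
      simp [R, CStarMatrix.conjTranspose_apply, CStarMatrix.one_apply]
      by_cases hij : i = j
      · subst hij; simp
      · simp [hij, Ne.symm hij]
    have hS : S.conjTranspose * S = 1 := by
      ext i j
      rw [CStarMatrix.mul_apply]
      simp [S, CStarMatrix.conjTranspose_apply, CStarMatrix.one_apply]
      by_cases hij : i = j
      · subst hij; simp
      · simp [hij, Ne.symm hij]
    obtain ⟨φ', σ', C', hC', hQ', hD', -⟩ := h2 A φ σ₀ C hQ hC hD (ι ⊕ κ)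
    have hcard : (0 : ℝ) < Fintype.card (ι ⊕ κ) := by
      exact_mod_cast Fintype.card_pos
    have hcard1 : (1 : ℝ) ≤ Fintype.card (ι ⊕ κ) := by
      exact_mod_cast Fintype.card_pos
    have hδ' : 0 < δ / Fintype.card (ι ⊕ κ) := by positivity
    obtain ⟨y', c', hc', hle, hdim⟩ := h1 (CStarMatrix (ι ⊕ κ) (ι ⊕ κ) A) φ' σ' C' hQ' hC' hD'
      (R * a * R.conjTranspose) (S * b * S.conjTranspose) (cm_conj_nonneg R ha)
      (cm_conj_nonneg S hb) (by
        intro τ
        obtain ⟨σ, hσ⟩ := h3 A (ι ⊕ κ) τ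
        rw [hσ Unit _ (one1_nonneg38 (cm_conj_nonneg R ha)),
          hσ Unit _ (one1_nonneg38 (cm_conj_nonneg S hb)),
          dim_flat38 h5 h6 σ R hR a ha, dim_flat38 h5 h6 σ S hS b hb]
        exact div_lt_div_of_pos_right (hab σ) hcard) _ hδ'
    refine ⟨S.conjTranspose * y' * R, R.conjTranspose * c' * R, cm_conj_nonneg' R hc', ?_, ?_⟩
    · have h8 := cm_conj_le' R hle
      have e1 : R.conjTranspose * (R * a * R.conjTranspose) * R = a := by
        rw [cm_assoc R, ← cm_assoc R.conjTranspose R, hR, cm_one_mul, cm_assoc, hR, cm_mul_one]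
      have e2 : R.conjTranspose * (star y' * (S * b * S.conjTranspose) * y' + c' +
          (δ / Fintype.card (ι ⊕ κ)) • (1 : CStarMatrix (ι ⊕ κ) (ι ⊕ κ) A)) * R =
          (S.conjTranspose * y' * R).conjTranspose * b * (S.conjTranspose * y' * R) +
          R.conjTranspose * c' * R +
          (δ / Fintype.card (ι ⊕ κ)) • (1 : CStarMatrix ι ι A) := by
        have a1 : ∀ x y : CStarMatrix (ι ⊕ κ) (ι ⊕ κ) A, R.conjTranspose * (x + y) * R =
          R.conjTranspose * x * R + R.conjTranspose * y * R := by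
          intro x y
          rw [show R.conjTranspose * (x + y) = R.conjTranspose * x + R.conjTranspose * y from
            Matrix.mul_add _ _ _]
          exact Matrix.add_mul _ _ _
        rw [a1, a1, cm_mul_rsmul, cm_rsmul_mul, cm_mul_one, hR]
        congr 2
        rw [cm_conj_mul, cm_conj_mul, cm_conj_conj, ← cm_star_eq]
        simp only [cm_assoc]
      rw [e1, e2] at h8
      refine h8.trans ?_
      gcongr
      exact div_le_self hδ.le hcard1
    · intro σ
      obtain ⟨ω, hω⟩ := h4 A (ι ⊕ κ) σ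
      have hn : 0 ≤ one1 c' := one1_nonneg38 hc'
      have hn2 : 0 ≤ flat (one1 c') := ((h5 A (ι ⊕ κ) Unit Unit _ (one1 c')).1).1 hn
      have h9 : σ.dim (R.conjTranspose * c' * R) ≤ σ.dim (flat (one1 c')) := by
        refine h6 A σ _ _ _ _ (cm_conj_nonneg' R hc') hn2 ?_
        intro ε hε
        refine ⟨(up38 R).conjTranspose, ?_⟩
        have : (up38 R).conjTranspose * flat (one1 c') * (up38 R).conjTranspose.conjTranspose =
            R.conjTranspose * c' * R := by
          rw [cm_conj_conj, cm_assoc, flat_one1_mul, up38_conj_mul, cm_assoc]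
        rw [this, sub_self, norm_zero]; exact hε
      have h10 := hdim ω
      rw [hω Unit _ hn] at h10
      have h11 := (div_lt_div_iff_of_pos_right hcard).1 h10
      exact lt_of_le_of_lt h9 h11

end RC
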